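import Pool.Agent.Q27.LT.Machine

/-! # Project LT (helper27): from fragments to machines (helper154) -/

set_option autoImplicit false

namespace Pool.Agent.Q154.LT

open Pool.Agent.Q27.LT

/-- states of the machine -/
inductive St (Q : Type) where
  | c0 : St Q
  | c1 : St Q
  | c2 : St Q
  | d1 : St Q
  | m : Q → St Q

theorem finSt {Q : Type} (hQ : Finite Q) : Finite (St Q) := by
  refine Finite.of_surjective (fun s : Fin 4 ⊕ Q => match s with
    | Sum.inl 0 => St.c0
    | Sum.inl 1 => St.c1
    | Sum.inl 2 => St.c2
    | Sum.inl 3 => St.d1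
    | Sum.inr q => St.m q) ?_
  intro s
  rcases s with _ | _ | _ | _ | q
  · exact ⟨Sum.inl 0, rfl⟩
  · exact ⟨Sum.inl 1, rfl⟩
  · exact ⟨Sum.inl 2, rfl⟩
  · exact ⟨Sum.inl 3, rfl⟩
  · exact ⟨Sum.inr q, rfl⟩

theorem finSym {A W : Type} (hA : Finite A) (hW : Finite W) : Finite (Sym A W) := by
  refine Finite.of_surjective (fun s : Fin 2 ⊕ A ⊕ W => match s with
    | Sum.inl 0 => Sym.mark
    | Sum.inl 1 => Sym.blank
    | Sum.inr (Sum.inl a) => Sym.inp a
    | Sum.inr (Sum.inr w) => Sym.aux w) ?_
  intro s
  rcases s with _ | _ | a | w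
  · exact ⟨Sum.inl 0, rfl⟩
  · exact ⟨Sum.inl 1, rfl⟩
  · exact ⟨Sum.inr (Sum.inl a), rfl⟩
  · exact ⟨Sum.inr (Sum.inr w), rfl⟩

variable {A W : Type}

/-- symbols of the fragment as symbols of the machine -/
def enc : Option (Option W) → Sym A W
  | none => .mark
  | some none => .blank
  | some (some w) => .aux w

/-- symbols of the machine as symbols of the fragment -/
def dec : Sym A W → Option (Option (Option W))
  | .mark => some none
  | .blank => some (some none)
  | .inp _ => none
  | .aux w => some (some (some w))

theorem dec_enc (s : Option (Option W)) : dec (enc s : Sym A W) = some s := by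
  rcases s with _ | _ | w <;> rfl

theorem enc_mark {s : Option (Option W)} (h : (enc s : Sym A W) = .mark) : s = none := by
  rcases s with _ | _ | w
  · rfl
  · cases h
  · cases h

theorem dec_mark {s : Sym A W} (h : dec s = some none) : s = .mark := by
  rcases s with _ | _ | a | w
  · rfl
  · cases h
  · cases h
  · cases h

/-- simulation of a step of the fragment -/
def sim (M : Frag W) (q : M.Q) (s : Sym A W) : Option (St M.Q × Sym A W × Bool) :=
  match dec s with
  | none => none
  | some s' => (M.δ q s').map (fun r => (St.m r.1, enc r.2.1, r.2.2))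

theorem sim_enc (M : Frag W) (q : M.Q) (s : Option (Option W)) :
    sim M q (enc s : Sym A W) = (M.δ q s).map (fun r => (St.m r.1, enc r.2.1, r.2.2)) := by
  unfold sim
  rw [dec_enc]

theorem sim_keep (M : Frag W) (q : M.Q) {q' : St M.Q} {x : Sym A W} {d : Bool}
    (h : sim M q .mark = some (q', x, d)) : x = .mark ∧ d = true := by
  have h1 : sim M q (enc none : Sym A W) = some (q', x, d) := h
  rw [sim_enc, Option.map_eq_some_iff] at h1
  obtain ⟨⟨r1, r2, r3⟩, hr, he⟩ := h1
  obtain ⟨h2, h3⟩ := M.keep q r1 r2 r3 hr
  subst h2; subst h3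
  simp only [Prod.mk.injEq] at he
  exact ⟨he.2.1.symm, he.2.2.symm⟩

theorem sim_only (M : Frag W) (q : M.Q) {s : Sym A W} {q' : St M.Q} {x : Sym A W} {d : Bool}
    (h : sim M q s = some (q', x, d)) (hx : x = .mark) : s = .mark := by
  unfold sim at h
  rcases hs : dec s with _ | s'
  · rw [hs] at h; cases h
  · rw [hs] at h
    simp only [Option.map_eq_some_iff] at h
    obtain ⟨⟨r1, r2, r3⟩, hr, he⟩ := h
    simp only [Prod.mk.injEq] at he
    have h2 : r2 = none := enc_mark (A := A) (he.2.1.trans hx)
    have h3 := M.only q s' r1 r2 r3 hr h2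
    subst h3
    exact dec_mark hs

open Classical in
/-- transitions of the machine -/
noncomputable def dl (M : Frag W) (i j : A → W) :
    St M.Q → Sym A W → Option (St M.Q × Sym A W × Bool)
  | .c0, .mark => some (.c1, .mark, true)
  | .c0, _ => none
  | .c1, .inp a => some (.c1, .aux (i a), true)
  | .c1, .blank => some (.c2, .blank, false)
  | .c1, _ => none
  | .c2, .mark => sim M M.start .mark
  | .c2, .aux w => some (.c2, .aux w, false)
  | .c2, _ => none
  | .d1, .aux w => if h : ∃ a, j a = w then some (.d1, .inp h.choose, true) else none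
  | .d1, _ => none
  | .m q, s => if q = M.stop ∧ s = .mark then some (.d1, .mark, true) else sim M q s

/-- the machine -/
noncomputable def mach (hW : Finite W) (M : Frag W) (i j : A → W) : Machine A where
  W := W
  Q := St M.Q
  finW := hW
  finQ := finSt M.finQ
  start := .c0
  acc := fun q => q = .d1
  δ := dl M i j
  keep := by
    intro q q' x d h
    rcases q with _ | _ | _ | _ | q
    · simp only [dl, Option.some.injEq, Prod.mk.injEq] at h
      exact ⟨h.2.1.symm, h.2.2.symm⟩
    · simp only [dl] at h; cases h
    · exact sim_keep M _ h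
    · simp only [dl] at h; cases h
    · simp only [dl] at h
      split_ifs at h with h1
      · simp only [Option.some.injEq, Prod.mk.injEq] at h
        exact ⟨h.2.1.symm, h.2.2.symm⟩
      · exact sim_keep M _ h
  only := by
    intro q s q' x d h hx
    subst hx
    rcases q with _ | _ | _ | _ | q
    · rcases s with _ | _ | a | w
      · rfl
      · simp [dl] at h
      · simp [dl] at h
      · simp [dl] at h
    · rcases s with _ | _ | a | w
      · rfl
      · simp [dl] at h
      · simp [dl] at h
      · simp [dl] at h
    · rcases s with _ | _ | a | w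
      · rfl
      · simp [dl] at h
      · simp [dl] at h
      · simp [dl] at h
    · rcases s with _ | _ | a | w
      · rfl
      · simp [dl] at h
      · simp [dl] at h
      · simp only [dl] at h
        split_ifs at h with h1
        simp at h
    · simp only [dl] at h
      split_ifs at h with h1
      · exact h1.2
      · exact sim_only M _ h rfl

/-! ### Runs -/

theorem reach_trans {M : Machine A} {k l : ℕ} {a b c : Cfg M} (h1 : Reach k a b)
    (h2 : Reach l b c) : Reach (k + l) a c := by
  induction k generalizing a with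
  | zero =>
    have : a = b := h1
    subst this
    rwa [Nat.zero_add]
  | succ k ih =>
    obtain ⟨a₁, ha, hr⟩ := h1
    rw [Nat.add_right_comm]
    exact ⟨a₁, ha, ih hr⟩

theorem reach_one {M : Machine A} {a b : Cfg M} (h : a.next = some b) : Reach 1 a b :=
  ⟨b, h, rfl⟩

section

variable (hW : Finite W) (M : Frag W) (i j : A → W)

/-- a configuration of the machine -/
noncomputable def cf (q : St M.Q) (p : ℕ) (t : ℕ → Sym A W) : Cfg (mach hW M i j) := ⟨q, p, t⟩

theorem cfg_next (q : St M.Q) (p : ℕ) (t : ℕ → Sym A W) {q' : St M.Q} {x : Sym A W} {d : Bool}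
    (h : dl M i j q (t p) = some (q', x, d)) {t' : ℕ → Sym A W} {p' : ℕ}
    (ht : t' = Function.update t p x) (hp : p' = if d then p + 1 else p - 1) :
    (cf hW M i j q p t).next = some (cf hW M i j q' p' t') := by
  subst ht; subst hp
  have h1 : (mach hW M i j).δ q (t p) = some (q', x, d) := h
  unfold Cfg.next
  show ((mach hW M i j).δ q (t p)).map _ = _
  rw [h1]
  rfl

/-- the tape during the first sweep -/
def mixTape (x : List A) (p : ℕ) : ℕ → Sym A W
  | 0 => .mark
  | n + 1 => match x[n]? with
    | none => .blank
    | some a => if n < p then .aux (i a) else .inp a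

/-- the tape during the last sweep -/
def mixTape' (x : List A) (p : ℕ) : ℕ → Sym A W
  | 0 => .mark
  | n + 1 => match x[n]? with
    | none => .blank
    | some a => if n < p then .inp a else .aux (j a)

theorem mix_zero (x : List A) : mixTape i x 0 = initTape x := by
  funext n
  rcases n with _ | n
  · rfl
  · simp only [mixTape, initTape]
    rcases x[n]? with _ | a
    · rfl
    · simp

theorem mix_last (x : List A) : mixTape i x x.length = fun n => enc (tapeOf (x.map i) n) := by
  funext n
  rcases n with _ | n
  · rfl
  · simp only [mixTape, tapeOf, List.getElem?_map]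
    rcases hx : x[n]? with _ | a
    · rfl
    · have hn : n < x.length := by
        by_contra h
        rw [List.getElem?_eq_none (not_lt.1 h)] at hx
        cases hx
      simp [hn, enc]

theorem mix'_zero (x : List A) : mixTape' j x 0 = fun n => enc (tapeOf (x.map j) n) := by
  funext n
  rcases n with _ | n
  · rfl
  · simp only [mixTape', tapeOf, List.getElem?_map]
    rcases hx : x[n]? with _ | a
    · rfl
    · simp [enc]

theorem mix'_last (x : List A) : mixTape' j x x.length = initTape x := by
  funext n
  rcases n with _ | n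
  · rfl
  · simp only [mixTape', initTape]
    rcases hx : x[n]? with _ | a
    · rfl
    · have hn : n < x.length := by
        by_contra h
        rw [List.getElem?_eq_none (not_lt.1 h)] at hx
        cases hx
      simp [hn]

theorem mix_update (x : List A) {p : ℕ} {a : A} (ha : x[p]? = some a) :
    mixTape i x (p + 1) = Function.update (mixTape i x p) (p + 1) (.aux (i a)) := by
  funext n
  rcases n with _ | n
  · rw [Function.update_of_ne (by omega)]; rfl
  · by_cases h : n = p
    · subst h
      rw [Function.update_self]
      simp [mixTape, ha]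
    · rw [Function.update_of_ne (by omega)]
      simp only [mixTape]
      rcases x[n]? with _ | b
      · rfl
      · simp only
        by_cases h1 : n < p
        · rw [if_pos h1, if_pos (by omega)]
        · rw [if_neg h1, if_neg (by omega)]

theorem mix'_update (x : List A) {p : ℕ} {a : A} (ha : x[p]? = some a) :
    mixTape' j x (p + 1) = Function.update (mixTape' j x p) (p + 1) (.inp a) := by
  funext n
  rcases n with _ | n
  · rw [Function.update_of_ne (by omega)]; rfl
  · by_cases h : n = p
    · subst h
      rw [Function.update_self]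
      simp [mixTape', ha]
    · rw [Function.update_of_ne (by omega)]
      simp only [mixTape']
      rcases x[n]? with _ | b
      · rfl
      · simp only
        by_cases h1 : n < p
        · rw [if_pos h1, if_pos (by omega)]
        · rw [if_neg h1, if_neg (by omega)]

theorem run_c1 (x : List A) (p : ℕ) (hp : p ≤ x.length) :
    Reach p (cf hW M i j .c1 1 (mixTape i x 0)) (cf hW M i j .c1 (p + 1) (mixTape i x p)) := by
  induction p with
  | zero => rfl
  | succ p ih =>
    refine reach_trans (ih (by omega)) (reach_one ?_)
    obtain ⟨a, ha⟩ : ∃ a, x[p]? = some a := ⟨x[p], List.getElem?_eq_getElem (by omega)⟩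
    refine cfg_next hW M i j _ _ _ (x := .aux (i a)) (d := true) ?_ (mix_update i x ha) rfl
    simp [mixTape, ha, dl]

theorem run_c2 (y : List W) (p : ℕ) (hp : p ≤ y.length) :
    Reach p (cf hW M i j .c2 p (fun n => enc (tapeOf y n)))
      (cf hW M i j .c2 0 (fun n => enc (tapeOf y n))) := by
  induction p with
  | zero => rfl
  | succ p ih =>
    rw [Nat.add_comm]
    refine reach_trans (reach_one ?_) (ih (by omega))
    obtain ⟨a, ha⟩ : ∃ a, y[p]? = some a := ⟨y[p], List.getElem?_eq_getElem (by omega)⟩
    have h1 : (enc (tapeOf y (p + 1)) : Sym A W) = .aux a := by simp [tapeOf, ha, enc]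
    rw [Nat.add_comm]
    refine cfg_next hW M i j _ _ _ (x := .aux a) (d := false) ?_ ?_ rfl
    · show dl M i j .c2 (enc (tapeOf y (p + 1))) = _
      rw [h1]
      rfl
    · rw [← h1]
      exact (Function.update_eq_self (p + 1) (fun n => (enc (tapeOf y n) : Sym A W))).symm

theorem run_d1 (hj : Function.Injective j) (x : List A) (p : ℕ) (hp : p ≤ x.length) :
    Reach p (cf hW M i j .d1 1 (mixTape' j x 0)) (cf hW M i j .d1 (p + 1) (mixTape' j x p)) := by
  induction p with
  | zero => rfl
  | succ p ih =>
    refine reach_trans (ih (by omega)) (reach_one ?_)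
    obtain ⟨a, ha⟩ : ∃ a, x[p]? = some a := ⟨x[p], List.getElem?_eq_getElem (by omega)⟩
    refine cfg_next hW M i j _ _ _ (x := .inp a) (d := true) ?_ (mix'_update j x ha) rfl
    have h1 : mixTape' j x p (p + 1) = .aux (j a) := by simp [mixTape', ha]
    rw [h1]
    have h2 : ∃ b, j b = j a := ⟨a, rfl⟩
    have h3 : h2.choose = a := hj h2.choose_spec
    simp only [dl]
    rw [dif_pos h2, h3]

/-- simulation of the fragment -/
theorem run_sim {k : ℕ} {q : M.Q} {p : ℕ} {t : ℕ → Option (Option W)} {q' : M.Q} {p' : ℕ}
    {t' : ℕ → Option (Option W)} (h : M.Reach k (q, p, t) (q', p', t')) :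
    Reach k (cf hW M i j (.m q) p (fun n => enc (t n))) (cf hW M i j (.m q') p' (fun n => enc (t' n))) := by
  induction k generalizing q p t with
  | zero =>
    have h1 : (q, p, t) = (q', p', t') := h
    simp only [Prod.mk.injEq] at h1
    obtain ⟨rfl, rfl, rfl⟩ := h1
    rfl
  | succ k ih =>
    obtain ⟨⟨q₁, p₁, t₁⟩, h1, h2⟩ := h
    unfold Frag.next at h1
    simp only [Option.map_eq_some_iff, Prod.mk.injEq] at h1
    obtain ⟨⟨r1, r2, r3⟩, hr, rfl, hp, ht⟩ := h1
    refine ⟨_, ?_, ih h2⟩
    refine cfg_next hW M i j _ _ _ (x := enc r2) (d := r3) ?_ ?_ hp.symm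
    · simp only [dl]
      rw [if_neg, sim_enc, hr]
      · rfl
      · rintro ⟨h3, h4⟩
        rw [h3, enc_mark h4, M.halt] at hr
        cases hr
    · rw [← ht]
      funext n
      by_cases hn : n = p
      · subst hn; rw [Function.update_self, Function.update_self]
      · rw [Function.update_of_ne hn, Function.update_of_ne hn]

/-- the first step of the simulation -/
theorem run_sim' {k : ℕ} {t : ℕ → Option (Option W)} {p' : ℕ} (ht0 : t 0 = none)
    {t' : ℕ → Option (Option W)} (h : M.Reach k (M.start, 0, t) (M.stop, p', t')) :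
    Reach k (cf hW M i j .c2 0 (fun n => enc (t n)))
      (cf hW M i j (.m M.stop) p' (fun n => enc (t' n))) := by
  rcases k with _ | k
  · have h1 : (M.start, 0, t) = (M.stop, p', t') := h
    simp only [Prod.mk.injEq] at h1
    exact absurd h1.1 M.ne
  · obtain ⟨⟨q₁, p₁, t₁⟩, h1, h2⟩ := h
    unfold Frag.next at h1
    simp only [Option.map_eq_some_iff, Prod.mk.injEq] at h1
    obtain ⟨⟨r1, r2, r3⟩, hr, rfl, hp, ht⟩ := h1
    refine ⟨_, ?_, run_sim hW M i j h2⟩
    refine cfg_next hW M i j _ _ _ (x := enc r2) (d := r3) ?_ ?_ hp.symm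
    · rw [ht0] at hr
      show dl M i j .c2 (enc (t 0)) = _
      rw [ht0]
      show sim M M.start (enc none) = _
      rw [sim_enc, hr]
      rfl
    · rw [← ht]
      funext n
      by_cases hn : n = 0
      · subst hn; rw [Function.update_self, Function.update_self]
      · rw [Function.update_of_ne hn, Function.update_of_ne hn]

end

/-- cells that are not visited do not change -/
theorem frag_far (M : Frag W) {k : ℕ} {c c' : M.Q × ℕ × (ℕ → Option (Option W))}
    (h : M.Reach k c c') {n : ℕ} (hn : c.2.1 + k ≤ n) : c'.2.2 n = c.2.2 n := by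
  induction k generalizing c with
  | zero =>
    have h1 : c = c' := h
    rw [h1]
  | succ k ih =>
    obtain ⟨c₁, h1, h2⟩ := h
    unfold Frag.next at h1
    rw [Option.map_eq_some_iff] at h1
    obtain ⟨r, hr, rfl⟩ := h1
    have h3 := ih h2 (by
      show (if r.2.2 then c.2.1 + 1 else c.2.1 - 1) + k ≤ n
      split_ifs <;> omega)
    rw [h3]
    show Function.update c.2.2 c.2.1 r.2.1 n = _
    rw [Function.update_of_ne (by omega)]

theorem len_le (M : Frag W) {k : ℕ} {x y : List W}
    (h : M.Reach k (M.start, 0, tapeOf x) (M.stop, 0, tapeOf y)) :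
    y.length ≤ x.length + k := by
  by_contra hlt
  push Not at hlt
  have h1 := frag_far M h (n := x.length + k + 1) (by
    show 0 + k ≤ x.length + k + 1
    omega)
  simp only [tapeOf] at h1
  rw [List.getElem?_eq_getElem hlt, List.getElem?_eq_none (by omega)] at h1
  cases h1

theorem t_MACHINE : S_machine := by
  intro A W _ hW i j F f M hM hi hj hF
  obtain ⟨C, hC⟩ := hM
  refine ⟨mach hW M i j, 2 * C + 3, fun x => ?_⟩
  obtain ⟨k, hk, hr⟩ := hC (x.map i)
  rw [List.length_map] at hk
  have hlen : (f x).length ≤ x.length + k := by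
    have h1 := len_le M hr
    rw [hF, List.length_map, List.length_map] at h1
    exact h1
  rw [hF] at hr
  have s1 : Reach 1 (cf hW M i j .c0 0 (initTape x)) (cf hW M i j .c1 1 (mixTape i x 0)) := by
    refine reach_one (cfg_next hW M i j _ _ _ (x := .mark) (d := true) rfl ?_ rfl)
    rw [mix_zero]
    exact (Function.update_eq_self 0 (initTape x)).symm
  have s2 := run_c1 hW M i j x x.length le_rfl
  have s3 : Reach 1 (cf hW M i j .c1 (x.length + 1) (mixTape i x x.length))
      (cf hW M i j .c2 x.length (fun n => enc (tapeOf (x.map i) n))) := by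
    have h1 : mixTape i x x.length (x.length + 1) = .blank := by simp [mixTape]
    refine reach_one (cfg_next hW M i j _ _ _ (x := .blank) (d := false) ?_ ?_ rfl)
    · rw [h1]; rfl
    · rw [← mix_last, ← h1]
      exact (Function.update_eq_self _ (mixTape i x x.length)).symm
  have s4 := run_c2 hW M i j (x.map i) x.length (by rw [List.length_map])
  have s5 := run_sim' hW M i j (rfl : tapeOf (x.map i) 0 = none) hr
  have s6 : Reach 1
      (cf hW M i j (.m M.stop) 0 (fun n => enc (tapeOf ((f x).map j) n))) (cf hW M i j .d1 1 (mixTape' j (f x) 0)) := by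
    refine reach_one (cfg_next hW M i j _ _ _ (x := .mark) (d := true) ?_ ?_ rfl)
    · show dl M i j (.m M.stop) .mark = _
      simp [dl]
    · rw [mix'_zero]
      exact (Function.update_eq_self 0 (fun n => (enc (tapeOf ((f x).map j) n) : Sym A W))).symm
  have s7 := run_d1 hW M i j hj (f x) (f x).length le_rfl
  have s := reach_trans (reach_trans (reach_trans (reach_trans (reach_trans (reach_trans s1 s2) s3)
    s4) s5) s6) s7
  refine ⟨_, _, ?_, s, ?_, rfl, fun n _ => ?_⟩
  · nlinarith
  · show (dl M i j .d1 (mixTape' j (f x) (f x).length ((f x).length + 1))).map _ = none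
    have h1 : mixTape' j (f x) (f x).length ((f x).length + 1) = .blank := by simp [mixTape']
    rw [h1]
    rfl
  · show mixTape' j (f x) (f x).length n = _
    rw [mix'_last]
    rfl

end Pool.Agent.Q154.LT
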